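import Pool.Agent.Q226.ADG.VC

/-!
# Weighted vertex cover of bounded degree is not hard under adaptive reductions of constant depth

A reduction writes down its instances bit by bit: `V` is a finite set of vertices, and an instance
`g : Bits V B → Bool` consists of the bits of the pairs of vertices (two different vertices are
adjacent if one of their two bits is `1`), of the `B` binary digits of the weight of each vertex, and
of the `B` binary digits of the threshold (`B` is arbitrary). The oracle has to distinguish instances
in which some vertex cover has weight at most the threshold from those in which every vertex cover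
has weight more than `c` times the threshold, where `c > 1` is arbitrary; its other answers are
arbitrary (`Right c`). The reductions considered here are randomised (the coins are a uniform element
`ρ` of a finite type `R`) and adaptive: the next query `query ρ l x` and the output `output ρ l x`
after `k` queries depend on the coins, on the list `l` of the answers given so far and on the input
`x` of `N` bits. `Computes` says that for every right oracle and for every `x` the output is the
parity of `x` with probability at least `1 / 2 + γ`. All degrees of the graphs of the queries are at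
most `Δ`.

(1) Reductions of arbitrary complexity: if every present bit of a query can be deleted by at most `s`
changes of one input bit, every equality of two queries on one path changes its truth value by at
most `s` such changes, and the output by at most `s` such changes, then
`2 γ N ≤ s (2 L k + k (k - 1) / 2 + 1)` with `L = c (4 Δ + 1) / (c - 1)`.

(2) Adaptive reductions of constant depth: let all bits of the queries and the output be computed by
circuits (one for each `ρ` and `l`, nonuniform) with NOT gates and AND and OR gates of unbounded
fan-in, of depth at most `h` and with at most `M` gates. Let `κ = γ (c - 1) / (c (4 Δ + 1))`. If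
`κ N ≥ X₀ k ^ (h + 4)` for a number `X₀` which depends on `h` only, then
`M + k ≥ γ 2 ^ ((κ N / k ^ 2) ^ (1 / (h + 2)) / 100)`.

So for no ratio `c > 1` is the gap version of weighted vertex cover on graphs of degree at most
`N ^ (1 - ε)` hard for `NP`, and not even for parity, under adaptive randomised reductions in `AC^0`
(Turing reductions) with `N ^ o(1)` queries.

Proof. The queries are answered by a random oracle: independently for each instance `g`, the answer is
`1` with probability `ans c g`, a function of the ratio of the minimum weight `opt g` and the
threshold which is `1` and `0` on the two sides of the promise. This oracle is always right. The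
law of the answers and the charging argument for neighbouring inputs are those of
`MP_62e2f2_lc.AdaptiveReductions`, for a general Lipschitz function. New is the estimate of the
relative decrease of `opt`: if every bit of `g` is deleted in at most `s` of the instances `g'`,
then the sum of the relative decreases `max 0 (opt g - opt g') / opt g` is at most `4 Δ s`, for weights
with any number of digits; a heavy vertex is replaced by its neighbours (`opt_diff`, `sum_opt_le`).
The same holds for the threshold with `s` in place of `4 Δ s` (`sum_num_le`).
-/

set_option autoImplicit false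

namespace Pool.Agent.Results.MP_cff830_lc.AdaptiveReductions

open Finset DomAC0 Pool.Agent.Q226.SEN Pool.Agent.Q226.ADG Pool.Agent.Q226.ADG.VC
open scoped Classical

/-- See above. The definitions of `Bits`, `num`, `Adj`, `weight`, `threshold`, `Covers`, `DegreeLE`,
`Right` are in `Pool/Agent/Q226/ADG/VCDefs.lean`, that of `Computes` in
`Pool/Agent/Q226/ADG/Defs.lean`, of `run` in `Pool/Agent/Q226/ADA/Defs.lean`, of `toggle`, `par` in
`Pool/Agent/Q226/SEN/Defs.lean`, and of circuits in `Pool/Agent/H568R2/Defs.lean`. -/
theorem result :
    -- (1) arbitrary complexity, few sensitive bits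
    (∀ (N k s B : ℕ) (V R : Type) [Fintype V] [Fintype R] [Nonempty R] (c Δ γ : ℝ)
      (query : R → List Bool → (Fin N → Bool) → Bits V B → Bool)
      (output : R → List Bool → (Fin N → Bool) → Bool),
      1 < c → 0 ≤ Δ → (∀ ρ l x, l.length < k → DegreeLE Δ (query ρ l x)) →
      Computes (Right c) k query output γ →
      (∀ ρ l x e, l.length < k → query ρ l x e = true →
        (univ.filter fun i => query ρ l (toggle i x) e = false).card ≤ s) →
      (∀ ρ l l' x, l.length < k → l' <:+ l → l' ≠ l →
        (univ.filter fun i => ¬ (query ρ l' x = query ρ l x ↔
          query ρ l' (toggle i x) = query ρ l (toggle i x))).card ≤ s) →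
      (∀ ρ l x, l.length = k →
        (univ.filter fun i => output ρ l x ≠ output ρ l (toggle i x)).card ≤ s) →
      2 * γ * N ≤ s * (2 * (c * (4 * Δ + 1) / (c - 1)) * k + k * (k - 1) / 2 + 1)) ∧
    -- (2) adaptive reductions of small depth
    ∀ h : ℕ, ∃ X₀ : ℝ, ∀ (N k M B : ℕ) (V R : Type) [Fintype V] [Fintype R] [Nonempty R]
      (c Δ γ κ : ℝ) (C : R → List Bool → Circuit (Fin N))
      (out : ∀ ρ l, Bits V B → Fin N ⊕ Fin (C ρ l).size) (fin : ∀ ρ l, Fin N ⊕ Fin (C ρ l).size),
      1 < c → 0 ≤ Δ → 0 < γ → 1 ≤ k → κ = γ * (c - 1) / (c * (4 * Δ + 1)) →
      (∀ ρ l, l.length ≤ k → (C ρ l).size ≤ M) →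
      (∀ ρ l e, l.length < k → (C ρ l).nodeDepth (out ρ l e) ≤ h) →
      (∀ ρ l, l.length = k → (C ρ l).nodeDepth (fin ρ l) ≤ h) →
      (∀ ρ l x, l.length < k → DegreeLE Δ fun e => (C ρ l).nodeVal x (out ρ l e)) →
      Computes (Right c) k (fun ρ l x e => (C ρ l).nodeVal x (out ρ l e))
        (fun ρ l x => (C ρ l).nodeVal x (fin ρ l)) γ →
      X₀ * (k : ℝ) ^ (h + 4) ≤ κ * N →
      γ * (2 : ℝ) ^ ((κ * N / (k : ℝ) ^ 2) ^ (1 / (h + 2 : ℝ)) / 100) ≤ M + k := by
  refine ⟨?_, fun h => ?_⟩
  · intro N k s B V R _ _ _ c Δ γ query output hc hΔ hdeg hred h1 h2 h3
    exact few_bits (lip c Δ hc hΔ) (charged Δ hΔ) query output hdeg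
      (fun O hO => hred O (right_of_near hc hO)) s h1 h2 h3
  · obtain ⟨X₀, hX⟩ := final h
    refine ⟨X₀, ?_⟩
    intro N k M B V R _ _ _ c Δ γ κ C out fin hc hΔ hγ hk hκ hM hh hfin hdeg hred hN
    have e : γ / (c * (4 * Δ + 1) / (c - 1)) = κ := by
      rw [hκ, div_div_eq_mul_div]
    have := hX (ans c) (DegreeLE Δ) (lost Δ) (c * (4 * Δ + 1) / (c - 1)) γ C out fin
      (lip c Δ hc hΔ) (charged Δ hΔ) hγ hk hM hh hfin hdeg
      (fun O hO => hred O (right_of_near hc hO)) (by rw [e]; exact hN)
    rw [e] at this
    exact this

end Pool.Agent.Results.MP_cff830_lc.AdaptiveReductions
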