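import Pool.Agent.Q231.VCR.Main

set_option autoImplicit false

/-!
Reductions of constant depth from parity to the gap version of the minimum weight vertex cover
problem with ratio `c`: none of subexponential size exists for `c > 1` if all degrees are at most
`N ^ (1 - γ)`, nor for `c ≥ 2 - 1 / (17 q)` if all degrees are at most `N ^ (q - γ)`.
-/

namespace Pool.Agent.Results.MP_cff830_lc.ConstantDepthReductions

open Pool.Agent.Q231.VCR

theorem result (h q : ℕ) (hq : 1 ≤ q) (γ : ℝ) (hγ : 0 < γ) (hγ1 : γ ≤ 1) (c : ℝ)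
    (hc : 2 - 1 / (17 * (q : ℝ)) ≤ c ∨ (q = 1 ∧ 1 < c)) :
    ∃ N0 : ℕ, ∀ N : ℕ, N0 ≤ N → ∀ R : GapReduction N h c,
      R.DegreeLE ((N : ℝ) ^ ((q : ℝ) - γ)) →
      (2 : ℝ) ^ ((N : ℝ) ^ (γ / (q * (h + 2))) / 5) < R.C.size :=
  main h q hq γ hγ hγ1 c hc

end Pool.Agent.Results.MP_cff830_lc.ConstantDepthReductions
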