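import Pool.Agent.Q202.TB.VC

/-!
# Vertex cover has no constant approximation ratio for read-once tensor networks

The input is a graph on `n` vertices, given by its edge bits, with all weights one. A tree tensor
network (`Net` in `Pool/Agent/TH700/PA/Defs.lean`) over a field `K` reads one bit at each leaf (with a
vector in `K ^ W` for each value); an inner node combines the vectors of its two children by an
arbitrary bilinear map; the input is accepted if a linear form of the vector of the root is not
zero. The tree, the weights and the field are arbitrary, so there may be cancellations (dynamic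
programming which counts or adds up partial solutions, nondeterministic and parity branching
programs, for every order of the bits, are of this form). The bond dimension is the number of
elements of `W`. Every bit is read at most once.

* (1) There is a constant `Γ` such that for all `g ≥ 1` and `n ≥ Γ g ^ 7` networks which accept all
  graphs with a vertex cover of at most `n / g` vertices and reject all graphs in which every vertex
  cover has more than `(1 - 1 / g) n` vertices have bond dimension at least `2 ^ (n / (Γ g ^ 6))`.
  Random networks may moreover reject a graph of the first kind with probability `1 - 2 ^ (-μ)`, at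
  the cost of a factor `2 ^ μ` in the bound. So no constant ratio, and no ratio `n ^ (1 / 7 - o(1))`,
  is possible with subexponential bond dimension.
* (2) The vertex covers with at most `k` vertices are counted with bond dimension `2 ^ n`, by a
  matrix product.

Proof of (1). The nodes of the tree give a partition of the pairs into `t = O(g ^ 6)` parts, small
compared to `n ^ 2 / g ^ 6`; each part has rank at most the cube of the bond dimension (starting
library `TH700`). The test graphs consist of all pairs which meet a random set of `n / g` vertices.
In a mixture, where each part gets its own random set, no set of `n / g` vertices is independent,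
with probability at least `1 - 2 ^ (-2 n)`: a part with many pairs inside such a set touches many
vertices of it. Now the replacement lemma of the library applies.
-/

set_option autoImplicit false

namespace Pool.Agent.Results.MP_cff830_lc.TensorNetworks

open Pool.Agent.TH700.PA Pool.Agent.Q202.TB

theorem result :
    (∃ Γ : ℕ, ∀ g n : ℕ, 1 ≤ g → Γ * g ^ 7 ≤ n →
      ∀ (μ : ℕ) (R : Type) [Fintype R] [Nonempty R] (K W : R → Type) [∀ ρ, Field (K ρ)]
        [∀ ρ, Fintype (W ρ)] (T : ∀ ρ, Net (K ρ) (Pairs n) Bool (W ρ)) (a : ∀ ρ, W ρ → K ρ),
        (∀ ρ e, (T ρ).reads e ≤ 1) →
        (∀ ρ x, (∀ C, IsCover x C → g * (n - C.card) < n) → (T ρ).value (a ρ) x = 0) →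
        (∀ x, (∃ C, IsCover x C ∧ g * C.card ≤ n) →
          Nat.card R ≤ 2 ^ μ * Nat.card {ρ // (T ρ).value (a ρ) x ≠ 0}) →
        ∃ ρ, 2 ^ n ≤ (2 ^ μ * Fintype.card (W ρ)) ^ (Γ * g ^ 6)) ∧
    (∀ n k : ℕ, 2 ≤ n →
      ∃ (T : Net ℚ (Pairs n) Bool (Finset (Fin n))) (a : Finset (Fin n) → ℚ),
        T.Linear ∧ (∀ e, T.reads e = 1) ∧
          ∀ x, T.value a x ≠ 0 ↔ ∃ C, IsCover x C ∧ C.card ≤ k) :=
  ⟨main_vc, fun _ k hn => upper_vc hn k⟩

end Pool.Agent.Results.MP_cff830_lc.TensorNetworks
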