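import Pool.Agent.Q226.VCF.Main

/-!
# Vertex cover: circuits whose negations are unreliable have no ratio below two

A graph on the vertex set `V` is given by bits: for each pair `e` of vertices and each tag `k < K`,
the bit of the position `(e, k)` tells whether there is an edge `e` with the tag `k`. Only inputs
without parallel edges are considered; the tags have no meaning. All weights are one.

The model: circuits of arbitrary nondecreasing real gates of fan-in two whose inputs are these bits,
their negations and constants, and which have in addition few arbitrary further gates. A randomised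
circuit is a finite family of such circuits, one of which is chosen uniformly at random. All circuits
of AND, OR and NOT gates can be brought into this form (without further gates) by doubling their
size; no bound on the depth is assumed.

Faults: each negated input (the information that there is no such edge at a position) is stuck at
`0`, independently with probability `1 / D`. The other inputs and all gates are reliable. The circuit
has to be right with probability `4 / 5` over its random choice and the faults: it computes a number
between the least size of a vertex cover and `c` times this size, or it prints a vertex cover of at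
most `c` times the least size.

* (1) If `c < 2` then the size is exponential, for every fault rate `1 / D`, however small, already
  for the graphs with `2 n` vertices which contain a fixed perfect matching (there the constant `2 n`
  has ratio `2`).
* (2) For all graphs with `n` vertices the size is exponential even for the ratio `n ^ (1 / 2 - η)`.
* Without faults this would be an unconditional circuit lower bound, as conjectured.
* For `D = 1` all negated inputs are `0`. This is the case without negations, the starting results
  `BelowTwo` and `SquareRootRatio`, which are used in the proof.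

The proof: every edge of a graph gets a random tag. Suppose moreover that for each pair which is not
an edge a random one of its positions is made faulty. The negated inputs are then independent of the
graph. The second moment method shows that this changes the joint distribution of all inputs by at
most `1 / 20` in total variation, for any graph. So there is a circuit without negated inputs which
is right with probability `3 / 4`.
-/

set_option autoImplicit false

namespace Pool.Agent.Results.MP_cff830_lc.UnreliableNegations

open H630VC Pool.Agent.Q226.FLT Pool.Agent.Q226.VCF

/-- (1) Let `c < 2`, `0 ≤ α < 1 / 2` and `n` large, `D ≥ 1`, `K ≥ 2400 D n ^ 2`. If a randomised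
circuit, with `combos (q ω) ≤ n ^ α` for the further gates, approximates under faults the least size
of a vertex cover within the ratio `c` for all inputs whose graph contains the perfect matching, or
prints such a cover, then some member has at least `2 ^ (n ^ ((1 - 2 α) / 7))` gates and wires into
further gates. (2) Let `0 < η ≤ 1 / 2`, `n` large, `D ≥ 1`, `K ≥ 800 D n ^ 2`, `ρ ≥ 1`. The same for all
graphs with `n` vertices and the ratio `ρ`: if `ρ * combos (q ω) ≤ n ^ (1 / 2 - η)` then some member
has at least `2 ^ (n ^ (η / 4))` gates and wires into further gates. -/
theorem result :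
    (∀ c : ℝ, c < 2 → ∀ α : ℝ, 0 ≤ α → α < 1 / 2 →
      ∃ N : ℕ, ∀ n : ℕ, N ≤ n → ∀ D K : ℕ, 1 ≤ D → 2400 * D * n ^ 2 ≤ K →
      ∀ (Ω : Type) [Fintype Ω] [Nonempty Ω]
        (l : Ω → List ((((Sym2 (Fin n ⊕ Fin n) × Fin K) × Bool) → Bool) → ℝ))
        (q : Ω → List (List (((((Sym2 (Fin n ⊕ Fin n) × Fin K) × Bool) → Bool) → ℝ) × ℝ))),
      (∀ ω, FProg (litInputs (Sym2 (Fin n ⊕ Fin n) × Fin K)) (l ω) (q ω)) →
      SolvesUnderFaults c D l (pmGraphs n) →
      (∀ ω, (combos (q ω) : ℝ) ≤ (n : ℝ) ^ α) →
      ∃ ω, (2 : ℝ) ^ ((n : ℝ) ^ ((1 - 2 * α) / 7)) ≤ (l ω).length + wires (q ω)) ∧
    (∀ η : ℝ, 0 < η → η ≤ 1 / 2 →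
      ∃ N : ℕ, ∀ n : ℕ, N ≤ n → ∀ D K : ℕ, 1 ≤ D → 800 * D * n ^ 2 ≤ K → ∀ ρ : ℝ, 1 ≤ ρ →
      ∀ (Ω : Type) [Fintype Ω] [Nonempty Ω]
        (l : Ω → List ((((Sym2 (Fin n) × Fin K) × Bool) → Bool) → ℝ))
        (q : Ω → List (List (((((Sym2 (Fin n) × Fin K) × Bool) → Bool) → ℝ) × ℝ))),
      (∀ ω, FProg (litInputs (Sym2 (Fin n) × Fin K)) (l ω) (q ω)) →
      SolvesUnderFaults ρ D l Set.univ →
      (∀ ω, ρ * combos (q ω) ≤ (n : ℝ) ^ (1 / 2 - η)) →
      ∃ ω, (2 : ℝ) ^ ((n : ℝ) ^ (η / 4)) ≤ (l ω).length + wires (q ω)) :=
  ⟨fun c hc α h0 h1 => main_pm c hc α h0 h1, fun η h1 h2 => main_all η h1 h2⟩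

end Pool.Agent.Results.MP_cff830_lc.UnreliableNegations
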